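import Mathlib
set_option autoImplicit false

/-!
Quadratic divisors of `X^N - 1`.
-/

namespace Pool.Agent.Y797.CY

open Polynomial in
theorem sq_ne_four {K : Type*} [Field K] [CharZero K] {k : K} {N : ℕ} (hN0 : N ≠ 0)
    (h : (X ^ 2 + C k * X + 1 : K[X]) ∣ X ^ N - 1) : k ^ 2 ≠ 4 := by
  intro h4
  have hsep : (X ^ N - 1 : K[X]).Separable :=
    X_pow_sub_one_separable_iff.2 (by exact_mod_cast hN0)
  have h2 : (2 : K) ≠ 0 := two_ne_zero
  have e : (X ^ 2 + C k * X + 1 : K[X]) = (X + C (k / 2)) * (X + C (k / 2)) := by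
    have h5 : C (k / 2) * C (k / 2) = (1 : K[X]) := by
      rw [← C_mul, ← C_1]
      congr 1
      field_simp
      linear_combination h4
    have h6 : C k = 2 * (C (k / 2) : K[X]) := by
      have h7 : (2 : K[X]) = C 2 := (map_ofNat C 2).symm
      rw [h7, ← C_mul]
      congr 1
      field_simp
    rw [h6]
    linear_combination -h5
  have h7 := hsep.squarefree (X + C (k / 2)) (e ▸ h)
  have h8 := natDegree_eq_zero_of_isUnit h7
  rw [natDegree_X_add_C] at h8
  exact one_ne_zero h8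

open Polynomial in
theorem two_root_ne {K : Type*} [Field K] [CharZero K] {k : K} {N : ℕ} (hN0 : N ≠ 0)
    (h : (X ^ 2 + C k * X + 1 : K[X]) ∣ X ^ N - 1) : (2 : K) ^ 2 + k * 2 + 1 ≠ 0 := by
  intro h0
  obtain ⟨q, hq⟩ := h
  have h1 := congrArg (eval 2) hq
  simp only [eval_sub, eval_mul, eval_add, eval_pow, eval_X, eval_C, eval_one] at h1
  rw [h0, zero_mul, sub_eq_zero] at h1
  have h2 : (2 : ℕ) ^ N = 1 := by exact_mod_cast h1
  exact absurd h2 (Nat.one_lt_pow hN0 (by norm_num)).ne'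

end Pool.Agent.Y797.CY
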