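import Pool.Agent.Y797.IV.Sim
import Pool.Agent.Y797.IV.Def
import Pool.Agent.TH333.CY.Unram
set_option autoImplicit false

/-!
The fibrations `∏_j (z_j + κ_j + 1/z_j) = λ ∏_e L_e` for arrangements in general position whose
vertices become integral after multiplication by `D`, `λ = μ D ^ (m + 1)`: the symbols of the
simplices are unramified.
-/

namespace Pool.Agent.Y797.CY

open scoped WithZero

open Pool.Agent.TH826.MK

open Pool.Agent.TH826.GA (cm vtx gam ku coe_ku)

open Pool.Agent.TH333.CY

open Pool.Agent.Y797.IV (Clears GenPos fx simplex_x_le simplex_val)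

section Unram

variable {K : Type*} [Field K] {s d m : ℕ} {lam : K} {κ : Fin (s + 1) → K}
  {c : Fin (m + 1) → Fin (d + 1) → K} {a : Fin (m + 1) → K}

variable {L : Type*} [Field L] (f : YOpen lam κ c a →+* L)

theorem gam_ne (hG : GenPos c a) {S : Fin (d + 2) → Fin (m + 1)} (hS : Function.Injective S)
    (i : Fin (d + 2)) : gam c S i ≠ 0 := by
  unfold gam
  exact mul_ne_zero (pow_ne_zero _ (by norm_num))
    (hG.1 _ (Pool.Agent.TH826.GA.injective_face hS i))

theorem map_yg (hG : GenPos c a) {S : Fin (d + 2) → Fin (m + 1)} (hS : Function.Injective S)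
    (i : Fin (d + 2)) : f (yg lam κ c a S i : YOpen lam κ c a) =
      cY f (gam c S i) * fx (cY f) (xY f) c a (S i) := by
  unfold yg
  rw [Units.val_mul, map_mul, map_yu]
  congr 1
  rw [Units.coe_map]
  show f (ycst lam κ c a (ku (gam c S i) : K)) = _
  rw [coe_ku (gam_ne hG hS i)]
  rfl

/-- The symbols are unramified at all discrete valuations. -/
theorem symb_mem_unitPart (hG : GenPos c a) (hc : ∀ e j, IsIntegral ℤ (c e j))
    (ha : ∀ e, IsIntegral ℤ (a e)) {D mu : K} (hD : Clears c a D) (hmu : IsIntegral ℤ mu)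
    (hlam : lam = mu * D ^ (m + 1))
    (hκ : ∀ j, IsIntegral ℤ (κ j)) {N : ℕ} (hN0 : N ≠ 0)
    (hN : ∀ j, (Polynomial.X ^ 2 + Polynomial.C (κ j) * Polynomial.X + 1 : Polynomial K) ∣
      Polynomial.X ^ N - 1)
    (v : Valuation L ℤᵐ⁰) {S : Fin (d + 2) → Fin (m + 1)} (hS : Function.Injective S) :
    symb (fun l => Units.map (f : YOpen lam κ c a →* L) (yent lam κ c a S l)) ∈
      unitPart v (s + (d + 1) + 1) := by
  classical
  obtain ⟨hD0, hDi, hDv⟩ := hD
  have hci : ∀ x : K, IsIntegral ℤ x → v (cY f x) ≤ 1 := fun x hx =>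
    val_le_one_of_integral v (map_isIntegral_int _ hx)
  set z : Fin (d + 2) → Lˣ := fun k => Units.map (f : YOpen lam κ c a →* L) (yg lam κ c a S k)
    with hz
  set w : Fin (s + 1) → Lˣ := fun j => Units.map (f : YOpen lam κ c a →* L) (uz lam κ c a j)
    with hw
  have hwv : ∀ j, (w j : L) = zY f j := fun j => rfl
  have hzv : ∀ k, (z k : L) = cY f (gam c S k) * fx (cY f) (xY f) c a (S k) :=
    fun k => map_yg f hG hS k
  have hent : (fun l => Units.map (f : YOpen lam κ c a →* L) (yent lam κ c a S l)) =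
      (Fin.cons (w 0) (Fin.append (fun j : Fin s => w j.succ)
        fun l : Fin (d + 1) => z l.succ / z 0) : Fin (s + (d + 1) + 1) → Lˣ) := by
    funext l
    refine Fin.cases ?_ (fun l => ?_) l
    · rfl
    · unfold yent
      rw [Fin.cons_succ, Fin.cons_succ]
      refine Fin.addCases (fun j => ?_) (fun j => ?_) l
      · rw [Fin.append_left, Fin.append_left]
      · rw [Fin.append_right, Fin.append_right]
        exact map_div (Units.map (f : YOpen lam κ c a →* L)) _ _
  rw [hent]
  -- the entry `w j`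
  have hwent : ∀ j, ∃ i : Fin (s + (d + 1) + 1), (Fin.cons (w 0) (Fin.append
      (fun j : Fin s => w j.succ) fun l : Fin (d + 1) => z l.succ / z 0) :
      Fin (s + (d + 1) + 1) → Lˣ) i = w j := by
    intro j
    refine Fin.cases ?_ (fun j => ?_) j
    · exact ⟨0, rfl⟩
    · refine ⟨(Fin.castAdd (d + 1) j).succ, ?_⟩
      rw [Fin.cons_succ, Fin.append_left]
  have hsum : ∑ k, (z k : L) = - cY f (∑ i, gam c S i * a (S i)) := by
    simp only [hzv]
    exact Pool.Agent.Y797.IV.sum_gx (cY f) (xY f) S
  by_cases hB : ∃ k, v (cY f (∑ i, gam c S i * a (S i))) < v (z k : L)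
  · obtain ⟨k, hk⟩ := hB
    obtain ⟨l, -, hl⟩ := Finset.exists_max_image Finset.univ (fun k => v (z k : L))
      ⟨k, Finset.mem_univ k⟩
    refine cons_append_mem_unitPart v (w 0) _ z l (fun k => hl k (Finset.mem_univ k)) ?_
    rw [hsum, Valuation.map_neg]
    exact hk.trans_le (hl k (Finset.mem_univ k))
  · push Not at hB
    have hB' : ∀ k, v (cY f (gam c S k) * fx (cY f) (xY f) c a (S k)) ≤
        v (cY f (∑ i, gam c S i * a (S i))) := fun k => by
      rw [← hzv]
      exact hB k
    have hDL : v (cY f D) ≠ 0 := by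
      rw [Valuation.ne_zero_iff]
      exact (map_ne_zero _).2 hD0
    have hDle : v (cY f D) ≤ 1 := hci _ hDi
    set B : ℤᵐ⁰ := (v (cY f D))⁻¹ with hBdef
    have hB0 : B ≠ 0 := inv_ne_zero hDL
    have hB1 : 1 ≤ B := (one_le_inv₀ (zero_lt_iff.2 hDL)).2 hDle
    have hDB : v (cY f D) * B = 1 := mul_inv_cancel₀ hDL
    have hvt : ∀ T' : Fin (d + 1) → Fin (m + 1), (cm c T').det ≠ 0 → ∀ j,
        v (cY f (vtx c a T' j)) ≤ B := by
      intro T' hT' j
      have h1 := hci _ (hDv T' hT' j)
      rw [map_mul, map_mul, mul_comm] at h1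
      exact (le_mul_inv_iff₀ (zero_lt_iff.2 hDL)).2 (by simpa using h1) |>.trans_eq (one_mul _)
    have hft : ∀ T' : Fin (d + 1) → Fin (m + 1), (cm c T').det ≠ 0 → ∀ e,
        v (cY f (∑ j, c e j * vtx c a T' j - a e)) ≤ B := by
      intro T' hT' e
      rw [map_sub, map_sum]
      refine (v.map_sub _ _).trans (max_le ?_ ((hci _ (ha e)).trans hB1))
      refine Valuation.map_sum_le v fun j _ => ?_
      rw [map_mul, map_mul]
      exact (mul_le_mul' (hci _ (hc e j)) (hvt T' hT' j)).trans_eq (one_mul _)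
    have hx : ∀ j, v (xY f j) ≤ B := fun j => simplex_x_le v hG.1 hG.2 hS hB' hvt j
    have hle : ∀ e, v (lY f e) ≤ B := by
      intro e
      refine (v.map_sub _ _).trans (max_le ?_ ((hci _ (ha e)).trans hB1))
      refine Valuation.map_sum_le v fun j _ => ?_
      rw [map_mul]
      exact (mul_le_mul' (hci _ (hc e j)) (hx j)).trans_eq (one_mul _)
    have hle1 : ∀ e, v (cY f D) * v (lY f e) ≤ 1 := fun e =>
      (mul_le_mul' le_rfl (hle e)).trans_eq hDB
    have hPeq : v (cY f lam * ∏ e, lY f e) = v (cY f mu) * ∏ e, (v (cY f D) * v (lY f e)) := by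
      have hl2 : cY f lam = cY f mu * cY f D ^ (m + 1) := by
        rw [← map_pow, ← map_mul]
        exact congrArg (cY f) hlam
      rw [hl2, map_mul, map_mul, map_pow, map_prod, Finset.prod_mul_distrib, Finset.prod_const,
        Finset.card_univ, Fintype.card_fin, mul_assoc]
    have hPhi : v (cY f lam * ∏ e, lY f e) ≤ 1 := by
      rw [hPeq]
      exact mul_le_one' (hci _ hmu) (Finset.prod_le_one' fun e _ => hle1 e)
    by_cases hB1 : ∃ j, v (zY f j) = 1 ∧ v (zY f j ^ 2 + cY f (κ j) * zY f j + 1) < 1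
    · obtain ⟨j, hj1, hj2⟩ := hB1
      obtain ⟨i, hi⟩ := hwent j
      refine mem_unitPart_of_pow v i (m := N) _ hN0 ?_
      rw [hi, hwv]
      exact val_pow_sub_one (cY f) v (hκ j) (hN j) hj1.le hj2
    · push Not at hB1
      -- the factors
      have hlow : ∀ j, v (zY f j) < 1 → v (zY f j ^ 2 + cY f (κ j) * zY f j + 1) = 1 := by
        intro j hj
        rw [add_comm]
        refine Valuation.map_one_add_of_lt v ?_
        refine (v.map_add _ _).trans_lt (max_lt ?_ ?_)
        · rw [map_pow]
          exact pow_lt_one₀ zero_le hj (by norm_num)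
        · rw [map_mul]
          calc _ ≤ 1 * v (zY f j) := mul_le_mul' (hci _ (hκ j)) le_rfl
            _ = v (zY f j) := one_mul _
            _ < 1 := hj
      have hhigh : ∀ j, 1 < v (zY f j) →
          v (zY f j ^ 2 + cY f (κ j) * zY f j + 1) = v (zY f j) ^ 2 := by
        intro j hj
        have hj2 : v (zY f j) < v (zY f j) ^ 2 := by
          rw [pow_two]
          exact lt_mul_of_one_lt_left (zero_lt_one.trans hj) hj
        rw [add_assoc, ← map_pow]
        refine Valuation.map_add_eq_of_lt_left v ?_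
        rw [map_pow]
        refine (v.map_add _ _).trans_lt (max_lt ?_ ?_)
        · rw [map_mul]
          calc _ ≤ 1 * v (zY f j) := mul_le_mul' (hci _ (hκ j)) le_rfl
            _ = v (zY f j) := one_mul _
            _ < _ := hj2
        · rw [map_one]
          exact hj.trans hj2
      have hg0 : ∀ j, v (zY f j ^ 2 + cY f (κ j) * zY f j + 1) ≠ 0 := by
        intro j h0
        have h1 := congrArg v (zY_eq f)
        rw [map_prod, Finset.prod_eq_zero (Finset.mem_univ j) h0] at h1
        have h2 : (cY f lam * ∏ e, lY f e) * ∏ j, zY f j ≠ 0 :=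
          mul_ne_zero (mul_ne_zero (cYlam_ne_zero f)
            (Finset.prod_ne_zero_iff.2 fun e _ => lY_ne_zero f e))
            (Finset.prod_ne_zero_iff.2 fun j _ => zY_ne_zero f j)
        exact (Valuation.ne_zero_iff v).2 h2 h1.symm
      have ht : ∀ j, v (zY f j) / v (zY f j ^ 2 + cY f (κ j) * zY f j + 1) ≤ 1 := by
        intro j
        rw [div_le_one₀ (zero_lt_iff.2 (hg0 j))]
        rcases lt_trichotomy (v (zY f j)) 1 with h | h | h
        · rw [hlow j h]
          exact h.le
        · rw [h]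
          exact hB1 j h
        · rw [hhigh j h, pow_two]
          exact (lt_mul_of_one_lt_left (zero_lt_one.trans h) h).le
      have hprod : v (cY f lam * ∏ e, lY f e) *
          ∏ j, (v (zY f j) / v (zY f j ^ 2 + cY f (κ j) * zY f j + 1)) = 1 := by
        have h1 := congrArg v (zY_eq f)
        rw [map_mul, map_prod, map_prod] at h1
        rw [Finset.prod_div_distrib, ← mul_div_assoc, ← h1]
        exact div_self (Finset.prod_ne_zero_iff.2 fun j _ => hg0 j)
      obtain ⟨hP1, hz1⟩ := all_one ht hPhi hprod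
      have hz2 : ∀ j, v (zY f j) = 1 := by
        intro j
        have h1 := hz1 j
        rw [div_eq_one_iff_eq (hg0 j)] at h1
        rcases lt_trichotomy (v (zY f j)) 1 with h | h | h
        · rw [hlow j h] at h1
          exact h1
        · exact h
        · rw [hhigh j h, pow_two] at h1
          exact absurd h1 (lt_mul_of_one_lt_left (zero_lt_one.trans h) h).ne
      rw [hPeq] at hP1
      obtain ⟨-, hl1⟩ := all_one hle1 (hci _ hmu) hP1
      have hall : ∀ e, v (fx (cY f) (xY f) c a e) = B := by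
        intro e
        have h1 : v (cY f D) * v (fx (cY f) (xY f) c a e) = 1 := hl1 e
        rw [hBdef]
        exact eq_inv_of_mul_eq_one_right h1
      refine Submodule.subset_span ⟨_, fun l => ?_, rfl⟩
      refine Fin.cases ?_ (fun l => ?_) l
      · exact hz2 0
      · rw [Fin.cons_succ]
        refine Fin.addCases (fun j => ?_) (fun j => ?_) l
        · rw [Fin.append_left]
          exact hz2 j.succ
        · have h0 : v (cY f (∑ i, gam c S i * a (S i))) ≠ 0 := by
            rw [Valuation.ne_zero_iff]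
            exact (map_ne_zero _).2 (Pool.Agent.TH826.GA.const_ne hG.1 hG.2 hS)
          rw [Fin.append_right, Units.val_div_eq_div_val, map_div₀, hzv, hzv,
            simplex_val v hG.1 hS hB' hft hall, simplex_val v hG.1 hS hB' hft hall, div_self h0]

theorem symb_mem_unramified (hG : GenPos c a) (hc : ∀ e j, IsIntegral ℤ (c e j))
    (ha : ∀ e, IsIntegral ℤ (a e)) {D mu : K} (hD : Clears c a D) (hmu : IsIntegral ℤ mu)
    (hlam : lam = mu * D ^ (m + 1))
    (hκ : ∀ j, IsIntegral ℤ (κ j)) {N : ℕ} (hN0 : N ≠ 0)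
    (hN : ∀ j, (Polynomial.X ^ 2 + Polynomial.C (κ j) * Polynomial.X + 1 : Polynomial K) ∣
      Polynomial.X ^ N - 1)
    {S : Fin (d + 2) → Fin (m + 1)} (hS : Function.Injective S) :
    KQ.map (s + (d + 1) + 1) f (symb (yent lam κ c a S)) ∈
      Unramified L (s + (d + 1) + 1) := by
  rw [KQ.map_symb]
  unfold Unramified
  simp only [Submodule.mem_iInf]
  intro v _
  exact symb_mem_unitPart f hG hc ha hD hmu hlam hκ hN0 hN v hS

end Unram

end Pool.Agent.Y797.CY
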